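import Pool.Agent.helper4.QX.SpecF
import Pool.Agent.helper97.QX.ALG

/-! Row qf:EHI (helper28): the key inequality, linear in the constant of `FB`. -/

set_option autoImplicit false

open scoped MatrixGroups ContDiff Topology UpperHalfPlane
open UpperHalfPlane MeasureTheory Filter Set
open Pool.Agent.QU

namespace Pool.Agent.QX

theorem EHI (hUZE : UZE_stmt) (hIDS : IDS_stmt) : EHI_stmt := by
  obtain ⟨ψ, hψ, hψ1⟩ := ALG_bump
  obtain ⟨K, hK, hU⟩ := hUZE ψ hψ hψ1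
  refine ⟨11 * (3 * (K + 1)) ^ 2, by positivity, ?_⟩
  intro g C hg hG u μ hμ hu hus
  have hC : 0 ≤ C := (abs_nonneg _).trans (hg.2 UpperHalfPlane.I).1
  obtain ⟨k1, k2, k3, k4, k5, k6, k7, k8⟩ := hU u μ hμ hu hus
  have h := ALG_main hIDS g u (hav ψ u) C K μ hg hG hC hK hμ hu hus k1 k2 k3 k4 k5 k6 k7 k8
  have e : 11 * (3 * (K + 1)) ^ 2 * C = 11 * C * (3 * (K + 1)) ^ 2 := by ring
  show |∫ z : ℍ, lap g z * u z ^ 2| ≤ 11 * (3 * (K + 1)) ^ 2 * C *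
      (Real.sqrt (Real.log (2 + μ) / Real.sqrt μ *
        (Real.sqrt (∫ z : ℍ, (lap u z - μ * u z) ^ 2) * Real.sqrt (∫ z : ℍ, u z ^ 2))) *
          Real.sqrt (∫ z : ℍ, u z ^ 2) + (∫ z : ℍ, u z ^ 2) / Real.sqrt μ)
  rw [e]
  exact h

end Pool.Agent.QX
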