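import Pool.Agent.helper4.QX.SpecP

set_option autoImplicit false

open Polynomial

namespace Pool.Agent.QX

theorem SP1 : SP1_stmt := by
  intro E _ _ _ A hA hn p M hM hp x
  set b := hA.eigenvectorBasis rfl with hb
  set lam := hA.eigenvalues rfl with hlam
  have hAb : ∀ i, A (b i) = (lam i) • b i := fun i => hA.apply_eigenvectorBasis rfl i
  have hl : ∀ i, |lam i| ≤ 1 := by
    intro i
    have h := hn (b i)
    rw [hAb, norm_smul, b.norm_eq_one i, mul_one, Real.norm_eq_abs] at h
    exact h
  have hpb : ∀ i, aeval A p (b i) = (p.eval (lam i)) • b i := by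
    intro i
    refine Module.End.aeval_apply_of_hasEigenvector ⟨Module.End.mem_eigenspace_iff.mpr (hAb i), ?_⟩
    intro h0
    have h1 := b.norm_eq_one i
    rw [h0, norm_zero] at h1
    exact zero_ne_one h1
  have hin : ∀ i, inner ℝ (b i) (aeval A p x) = p.eval (lam i) * inner ℝ (b i) x := by
    intro i
    conv_lhs => rw [← b.sum_repr' x, map_sum]
    rw [inner_sum, Finset.sum_eq_single i]
    · rw [map_smul, hpb, inner_smul_right, inner_smul_right, real_inner_self_eq_norm_sq,
        b.norm_eq_one i]
      ring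
    · intro j _ hji
      rw [map_smul, hpb, inner_smul_right, inner_smul_right, b.inner_eq_zero hji.symm]
      ring
    · intro h
      exact absurd (Finset.mem_univ i) h
  have hsq : ‖aeval A p x‖ ^ 2 ≤ (M * ‖x‖) ^ 2 := by
    rw [← b.sum_sq_norm_inner_right (aeval A p x), mul_pow, ← b.sum_sq_norm_inner_right x,
      Finset.mul_sum]
    refine Finset.sum_le_sum (fun i _ => ?_)
    rw [hin, norm_mul, mul_pow, Real.norm_eq_abs]
    refine mul_le_mul_of_nonneg_right ?_ (sq_nonneg _)
    exact pow_le_pow_left₀ (abs_nonneg _) (hp _ (hl i)) 2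
  exact le_of_sq_le_sq hsq (mul_nonneg hM (norm_nonneg _))

end Pool.Agent.QX
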